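import Mathlib

/-!
Weighted product-one subsequences in finite groups: statements.

Vertices are functions `v : ι → V` (one coordinate in a rooted tree for each index `i : ι`,
`D.p i` the prime of `i`, `D.dep i` the depth, `D.par i` the parent).
A move takes `D.p i` pebbles from `v` and puts one pebble on `D.down i v`.
-/

namespace W289.ZS

open Finset

universe u v

structure Dat (ι : Type u) (V : Type v) where
  p : ι → ℕ
  dep : ι → V → ℕ
  par : ι → V → V

variable {ι : Type u} {V : Type v} [Fintype ι] [DecidableEq ι] [DecidableEq V]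

/-- move the coordinate `i` to its parent -/
def Dat.down (D : Dat ι V) (i : ι) (v : ι → V) : ι → V :=
  Function.update v i (D.par i (v i))

structure Dat.Pr (D : Dat ι V) : Prop where
  prime : ∀ i, (D.p i).Prime
  inj : Function.Injective D.p

/-- `X` is a complex with root `r` and active coordinates `A` -/
structure Cpx (D : Dat ι V) (A : Finset ι) (X : Finset (ι → V)) (r : ι → V) : Prop where
  root_mem : r ∈ X
  root_dep : ∀ i ∈ A, D.dep i (r i) = 0
  down_mem : ∀ v ∈ X, ∀ i ∈ A, 0 < D.dep i (v i) → D.down i v ∈ X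
  frozen : ∀ v ∈ X, ∀ i, i ∉ A → v i = r i
  dep_zero : ∀ v ∈ X, ∀ i ∈ A, D.dep i (v i) = 0 → v i = r i
  dep_par : ∀ v ∈ X, ∀ i ∈ A, 0 < D.dep i (v i) →
    D.dep i (D.par i (v i)) + 1 = D.dep i (v i)

/-- weight of a vertex -/
def wt (D : Dat ι V) (A : Finset ι) (v : ι → V) : ℕ :=
  ∏ i ∈ A, Nat.totient (D.p i ^ D.dep i (v i))

/-- total weight -/
def NN (D : Dat ι V) (A : Finset ι) (X : Finset (ι → V)) : ℕ := ∑ v ∈ X, wt D A v

/-- number of pebbles on `X` -/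
def cnt {σ : Type*} (X : Finset σ) (s : σ → ℕ) : ℕ := ∑ v ∈ X, s v

/-- number of occupied vertices of `X` -/
def sup {σ : Type*} (X : Finset σ) (s : σ → ℕ) : ℕ := (X.filter (fun v => s v ≠ 0)).card

/-- reachability by pebbling moves at the indices of `A` -/
inductive Reach (D : Dat ι V) (A : Finset ι) : ((ι → V) → ℕ) → ((ι → V) → ℕ) → Prop
  | refl (s : (ι → V) → ℕ) : Reach D A s s
  | step (s r : (ι → V) → ℕ) (v : ι → V) (i : ι) :
      Reach D A s (r + Pi.single v (D.p i)) → i ∈ A → 0 < D.dep i (v i) →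
      Reach D A s (r + Pi.single (D.down i v) 1)

/-- `t` pebbles can be brought to the vertex `w` -/
def Solv (D : Dat ι V) (A : Finset ι) (s : (ι → V) → ℕ) (w : ι → V) (t : ℕ) : Prop :=
  ∃ r : (ι → V) → ℕ, Reach D A s (r + Pi.single w t)

def TT (D : Dat ι V) (A : Finset ι) (X : Finset (ι → V)) (r : ι → V) : Prop :=
  ∀ s : (ι → V) → ℕ, NN D A X ≤ cnt X s → Solv D A s r 1

def SS (D : Dat ι V) (A : Finset ι) (X : Finset (ι → V)) (r : ι → V) : Prop :=
  ∀ (s : (ι → V) → ℕ) (t : ℕ), 2 ≤ t → t * NN D A X + 1 ≤ cnt X s + sup X s →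
    Solv D A s r t

/-! ### pieces of a complex, with respect to an index `q` and the top depth `b` -/

def Xlt (D : Dat ι V) (q : ι) (b : ℕ) (X : Finset (ι → V)) : Finset (ι → V) :=
  X.filter (fun v => D.dep q (v q) < b)

def Qs (D : Dat ι V) (q : ι) (b : ℕ) (X : Finset (ι → V)) : Finset V :=
  (X.filter (fun v => D.dep q (v q) = b)).image (fun v => v q)

def YY (q : ι) (X : Finset (ι → V)) (Q : V) : Finset (ι → V) :=
  X.filter (fun v => v q = Q)

def ZZ (D : Dat ι V) (q : ι) (b : ℕ) (X : Finset (ι → V)) (Q : V) : Finset (ι → V) :=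
  ((YY q X Q) ×ˢ (range b)).image
    (fun uj => Function.update uj.1 q ((D.par q)^[uj.2 + 1] Q))

/-! ### the tasks -/

/-- T1: basic properties of `Solv` -/
def TaskBasic : Prop :=
  ∀ (ι : Type u) (V : Type v) [Fintype ι] [DecidableEq ι] [DecidableEq V] (D : Dat ι V),
    (∀ A s w, Solv D A s w (s w)) ∧
    (∀ A s s' w t t', Solv D A s w t → Solv D A s' w t' → Solv D A (s + s') w (t + t')) ∧
    (∀ A s s' w t, Solv D A s w t → (∀ v, s v ≤ s' v) → Solv D A s' w t) ∧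
    (∀ A s w t t', Solv D A s w t → t' ≤ t → Solv D A s w t') ∧
    (∀ A s s' w t, Reach D A s s' → Solv D A s' w t → Solv D A s w t) ∧
    (∀ A B s w t, A ⊆ B → Solv D A s w t → Solv D B s w t) ∧
    (∀ A s w i t, i ∈ A → 0 < D.dep i (w i) → Solv D A s w (D.p i * t) →
      Solv D A s (D.down i w) t)

/-- T2: bringing pebbles from the root of a top piece to the root -/
def TaskChain : Prop :=
  ∀ (ι : Type u) (V : Type v) [Fintype ι] [DecidableEq ι] [DecidableEq V] (D : Dat ι V)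
    (A : Finset ι) (X : Finset (ι → V)) (r : ι → V), D.Pr → Cpx D A X r →
    ∀ q ∈ A, ∀ Q : V, Function.update r q Q ∈ X →
    ∀ (s : (ι → V) → ℕ) (t : ℕ),
      Solv D A s (Function.update r q Q) (D.p q ^ (D.dep q Q) * t) → Solv D A s r t

/-- T3: moving everything down one step at `q` -/
def TaskTransfer : Prop :=
  ∀ (ι : Type u) (V : Type v) [Fintype ι] [DecidableEq ι] [DecidableEq V] (D : Dat ι V)
    (A : Finset ι) (q : ι), D.Pr → q ∈ A →
    ∀ (Y W : Finset (ι → V)), Disjoint Y W → (∀ v ∈ Y, 0 < D.dep q (v q)) →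
    (∀ v ∈ Y, D.down q v ∈ W) →
    ∀ s : (ι → V) → ℕ, ∃ s' : (ι → V) → ℕ, Reach D A s s' ∧ (∀ w ∈ W, s w ≤ s' w) ∧
      cnt W s' = cnt W s + ∑ v ∈ Y, s v / D.p q

/-- T4: splitting with control of the residues -/
def TaskSplit : Prop :=
  ∀ (σ : Type (max u v)) [DecidableEq σ] (Y : Finset σ) (s : σ → ℕ) (q M : ℕ), 1 ≤ q →
    q * sup Y s ≤ M → M ≤ cnt Y s →
    ∃ s1 s2 : σ → ℕ, s = s1 + s2 ∧ (∀ v, v ∉ Y → s1 v = 0) ∧ (∀ v ∈ Y, s v ≠ 0 → s1 v ≠ 0) ∧
      cnt Y s1 = M ∧ (cnt Y s2) / q ≤ ∑ v ∈ Y, s2 v / q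

/-- T5: the pieces are complexes -/
def TaskPieces : Prop :=
  ∀ (ι : Type u) (V : Type v) [Fintype ι] [DecidableEq ι] [DecidableEq V] (D : Dat ι V)
    (A : Finset ι) (X : Finset (ι → V)) (r : ι → V), D.Pr → Cpx D A X r →
    ∀ (q : ι) (b : ℕ), q ∈ A → 1 ≤ b → (∀ v ∈ X, D.dep q (v q) ≤ b) →
    Cpx D A (Xlt D q b X) r ∧
    (∀ Q ∈ Qs D q b X, D.dep q Q = b) ∧
    (∀ Q ∈ Qs D q b X, Cpx D (A.erase q) (YY q X Q) (Function.update r q Q)) ∧
    (∀ Q ∈ Qs D q b X, Cpx D A (ZZ D q b X Q) r) ∧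
    (∀ Q ∈ Qs D q b X, ZZ D q b X Q ⊆ Xlt D q b X) ∧
    (∀ Q ∈ Qs D q b X, ∀ v ∈ YY q X Q, D.down q v ∈ ZZ D q b X Q)

/-- T6: weights of the pieces -/
def TaskWeights : Prop :=
  ∀ (ι : Type u) (V : Type v) [Fintype ι] [DecidableEq ι] [DecidableEq V] (D : Dat ι V)
    (A : Finset ι) (X : Finset (ι → V)) (r : ι → V), D.Pr → Cpx D A X r →
    ∀ (q : ι) (b : ℕ), q ∈ A → 1 ≤ b → (∀ v ∈ X, D.dep q (v q) ≤ b) →
    (∀ v, 1 ≤ wt D A v) ∧
    (NN D A X = NN D A (Xlt D q b X) +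
      ∑ Q ∈ Qs D q b X, (D.p q - 1) * (D.p q ^ (b - 1) * NN D (A.erase q) (YY q X Q))) ∧
    (∀ Q ∈ Qs D q b X,
      NN D A (ZZ D q b X Q) = D.p q ^ (b - 1) * NN D (A.erase q) (YY q X Q)) ∧
    ((D.p q = 2 ∨ ∀ v ∈ X, ∀ i ∈ A, D.p i = 2 → D.dep i (v i) = 0) →
      ∀ Q ∈ Qs D q b X, 2 * (YY q X Q).card ≤ NN D (A.erase q) (YY q X Q) + 1)

/-- T7: decomposition of counts -/
def TaskCounts : Prop :=
  ∀ (ι : Type u) (V : Type v) [Fintype ι] [DecidableEq ι] [DecidableEq V] (D : Dat ι V)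
    (X : Finset (ι → V)) (q : ι) (b : ℕ), (∀ v ∈ X, D.dep q (v q) ≤ b) →
    (∀ s : (ι → V) → ℕ, cnt X s = cnt (Xlt D q b X) s + ∑ Q ∈ Qs D q b X, cnt (YY q X Q) s) ∧
    (∀ s : (ι → V) → ℕ, sup X s = sup (Xlt D q b X) s + ∑ Q ∈ Qs D q b X, sup (YY q X Q) s) ∧
    (∀ Q ∈ Qs D q b X, Disjoint (YY q X Q) (Xlt D q b X)) ∧
    (∀ s : (ι → V) → ℕ, ∀ Y ⊆ X, cnt X s = cnt Y s + cnt (X \ Y) s) ∧
    (∀ s : (ι → V) → ℕ, ∀ Y ⊆ X, sup X s = sup Y s + sup (X \ Y) s)

/-- the main theorem on pebbling -/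
def TaskMain : Prop :=
  ∀ (ι : Type u) (V : Type v) [Fintype ι] [DecidableEq ι] [DecidableEq V] (D : Dat ι V)
    (A : Finset ι) (X : Finset (ι → V)) (r : ι → V), D.Pr → Cpx D A X r →
    TT D A X r ∧ SS D A X r

/-! ### the group side -/

section grp

variable (G : Type u) [Group G] [Fintype G]

/-- indices: the primes dividing the order of `G` -/
abbrev Ix : Type := {p : ℕ // p ∈ (Nat.card G).primeFactors}

noncomputable def DG : Dat (Ix G) (Subgroup G) where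
  p := fun i => i.1
  dep := fun i H => (Nat.card H).factorization i.1
  par := fun i H => Subgroup.closure ((fun x => x ^ i.1) '' (H : Set G))

/-- the vertex of an element: the cyclic groups generated by its primary parts -/
noncomputable def tau (g : G) : Ix G → Subgroup G :=
  fun i => Subgroup.zpowers (g ^ (Nat.card G / i.1 ^ ((Nat.card G).factorization i.1)))

end grp

/-- G1: properties of `tau` -/
def TaskTau : Prop :=
  ∀ (G : Type u) [Group G] [Fintype G],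
    (∀ i : Ix G, tau G 1 i = ⊥) ∧
    (∀ a b : G, tau G a = tau G b → Subgroup.zpowers a = Subgroup.zpowers b) ∧
    (∀ a b : G, Subgroup.zpowers a = Subgroup.zpowers b → tau G a = tau G b) ∧
    (∀ (a : G) (i : Ix G), (DG G).down i (tau G a) = tau G (a ^ i.1)) ∧
    (∀ (a : G) (i : Ix G), (DG G).dep i (tau G a i) = (orderOf a).factorization i.1)

/-- G2: the complex of a group -/
def TaskGroup : Prop :=
  ∀ (G : Type u) [Group G] [Fintype G] [DecidableEq (Subgroup G)],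
    (DG G).Pr ∧ Cpx (DG G) univ (univ.image (tau G)) (tau G 1) ∧
    NN (DG G) univ (univ.image (tau G)) ≤ Nat.card G

/-- an index set together with an order of multiplication -/
def Good {n : ℕ} {G : Type u} [Group G] (g : Fin n → G) (K : Finset (Fin n)) (a : G) : Prop :=
  K.Nonempty ∧ (∃ l : List (Fin n), l.Nodup ∧ l.toFinset = K ∧
    (l.map g).prod ∈ Subgroup.zpowers a) ∧
    ∑ k ∈ K, (1 : ℚ) / (orderOf (g k) : ℚ) ≤ 1 / (orderOf a : ℚ)

/-- G3: one pebbling move for index sets -/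
def TaskMove : Prop :=
  ∀ (G : Type u) [Group G] [Fintype G] (n : ℕ) (g : Fin n → G) (a : G) (p : ℕ), p.Prime →
    p ∣ orderOf a → ∀ F : Finset (Finset (Fin n)), p ≤ F.card →
    (∀ K ∈ F, Good g K a) → (∀ K ∈ F, ∀ L ∈ F, K ≠ L → Disjoint K L) →
    ∃ K : Finset (Fin n), K ⊆ F.biUnion id ∧ Good g K (a ^ p)

/-- a configuration realised by pairwise disjoint index sets -/
def Realize {G : Type u} [Group G] [Fintype G] {n : ℕ} (g : Fin n → G)
    (s : (Ix G → Subgroup G) → ℕ) : Prop :=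
  ∃ F : (Ix G → Subgroup G) → Finset (Finset (Fin n)),
    (∀ v, s v ≤ (F v).card) ∧
    (∀ v, ∀ K ∈ F v, ∃ a : G, tau G a = v ∧ Good g K a) ∧
    (∀ v w, ∀ K ∈ F v, ∀ L ∈ F w, (v ≠ w ∨ K ≠ L) → Disjoint K L)

/-- G4: from reachability to index sets -/
def TaskRealize : Prop :=
  ∀ (G : Type u) [Group G] [Fintype G] [DecidableEq (Subgroup G)] (n : ℕ) (g : Fin n → G)
    (s s' : (Ix G → Subgroup G) → ℕ),
    (∀ v, s v = (univ.filter (fun k : Fin n => tau G (g k) = v)).card) →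
    Reach (DG G) univ s s' → Realize g s'

/-- the result -/
def TaskResult : Prop :=
  ∀ (G : Type u) [Group G] [Fintype G] (g : Fin (Nat.card G) → G),
    ∃ K : Finset (Fin (Nat.card G)), K.Nonempty ∧
      (∃ l : List (Fin (Nat.card G)), l.Nodup ∧ l.toFinset = K ∧ (l.map g).prod = 1) ∧
      ∑ k ∈ K, (1 : ℚ) / (orderOf (g k) : ℚ) ≤ 1

end W289.ZS
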